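import Pool.Agent.Lib.MP_bcd198_co.Final
import Pool.Agent.Lib.MP_bcd198_co.W.Iso

/-!
# MP_bcd198_co: random graphs locally like hyperbolic tilings are connected

`hypTiling p q` (file `Lib/MP_bcd198_co/Geo.lean`) is the graph of the regular tiling `{p,q}` of the
hyperbolic plane, in the hyperboloid model: the vertices are the images of `v0` under the group
generated by the reflections in the sides of the triangle with angles `π/p`, `π/q`, `π/2`, and the
edges are the images of the base edge.  `ConnectivityForcing r F u` (file
`Lib/MP_bcd198_co/Defs.lean`) is the definition of the problem file for the graph `F` with the fixed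
vertex `u`: the probability that a uniformly random unlabelled `r`-locally `F` graph with `n`
vertices is connected tends to `1` along the `n` for which such graphs exist.

The theorem answers Q1 affirmatively for all regular hyperbolic tilings and all `r ≥ 1`.
-/

set_option autoImplicit false

namespace Pool.Agent.Results.MP_bcd198_co.HyperbolicTilings

open MPbcd198

/-- If `F` is the graph of the regular tiling `{p,q}` of the hyperbolic plane (`p, q ≥ 3`,
`(p-2)(q-2) > 4`) then `(F, r)` is connectivity-forcing for every `r ≥ 1`. -/
theorem result (p q r : ℕ) (hp : 3 ≤ p) (hq : 3 ≤ q) (hpq : 4 < (p - 2) * (q - 2))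
    (hr : 1 ≤ r) : ConnectivityForcing r (hypTiling p q) (hypBase p q) :=
  W.forcing_hyp ⟨hp, hq, hpq⟩ r (connectivityForcing_all ⟨hp, hq, hpq⟩ r hr)

end Pool.Agent.Results.MP_bcd198_co.HyperbolicTilings
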